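import Pool.Agent.H34.TAM.Stmts

/-!
# Board `tam`, row LIN: `Yes` is invariant under invertible linear changes of the variables
-/

set_option autoImplicit false

noncomputable section

namespace Pool.TAM

open Pool.CGR Pool.CGS

namespace LIN64

theorem pe_eq {α A : Type} [Ring A] [Algebra ℂ A] (x : α → A) (P : List α →₀ ℂ) :
    pe x P = Finsupp.linearCombination ℂ (ev x) P := rfl

theorem dp_eq {α A : Type} [DecidableEq α] [Ring A] [Algebra ℂ A] (τ : A →ₗ[ℂ] ℂ) (x : α → A) (i : α)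
    (P : List α →₀ ℂ) : dp τ x i P =
      Finsupp.linearCombination ℂ (fun w => dq (fun w => τ (ev x w)) i w) P := rfl

theorem slp_eq {m : ℕ} (T : Matrix (Fin m) (Fin m) ℂ) (P : List (Fin m) →₀ ℂ) :
    slp T P = Finsupp.linearCombination ℂ (sl T) P := rfl

theorem cp_eq {α A : Type} [DecidableEq α] [Ring A] [Algebra ℂ A] (x : α → A) (i : α)
    (P : List α →₀ ℂ) : cp x i P = Finsupp.linearCombination ℂ (cg x i) P := rfl

theorem left_li {m : ℕ} {A : Type} [Ring A] [Algebra ℂ A] (T : Matrix (Fin m) (Fin m) ℂ)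
    (x : Fin m → A) :
    (fun j => (LinearMap.mulLeft ℂ (li T x j) : Module.End ℂ A)) =
      li T (fun j => (LinearMap.mulLeft ℂ (x j) : Module.End ℂ A)) := by
  funext j
  ext a
  simp [li, Finset.sum_mul, LinearMap.sum_apply]

theorem app_sum {α A : Type} [Ring A] [Algebra ℂ A] (τ : A →ₗ[ℂ] ℂ) (P : List α →₀ ℂ)
    (f : List α → Module.End ℂ A) :
    τ ((P.sum fun W r => r • f W) 1) = Finsupp.linearCombination ℂ (fun W => τ (f W 1)) P := by
  rw [Finsupp.linearCombination_apply, Finsupp.sum, Finsupp.sum, LinearMap.sum_apply, map_sum]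
  refine Finset.sum_congr rfl fun W _ => ?_
  rw [LinearMap.smul_apply, map_smul]

theorem tau_sum {α A : Type} [Ring A] [Algebra ℂ A] (τ : A →ₗ[ℂ] ℂ) (P : List α →₀ ℂ)
    (f : List α → A) :
    τ (P.sum fun W r => r • f W) = Finsupp.linearCombination ℂ (fun W => τ (f W)) P := by
  rw [Finsupp.linearCombination_apply, Finsupp.sum, Finsupp.sum, map_sum]
  refine Finset.sum_congr rfl fun W _ => ?_
  rw [map_smul]

/-- `li T⁻¹ (li T x) = x` -/
theorem li_inv {m : ℕ} {A : Type} [Ring A] [Algebra ℂ A] (T : Matrix (Fin m) (Fin m) ℂ)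
    (hT : IsUnit T.det) (x : Fin m → A) : li T⁻¹ (li T x) = x := by
  funext k
  have h : ∀ j : Fin m, ∑ l, T⁻¹ k l * T l j = (1 : Matrix (Fin m) (Fin m) ℂ) k j := by
    intro j
    rw [← Matrix.nonsing_inv_mul T hT, Matrix.mul_apply]
  calc li T⁻¹ (li T x) k = ∑ l, ∑ j, (T⁻¹ k l * T l j) • x j := by
        unfold li
        refine Finset.sum_congr rfl fun l _ => ?_
        rw [Finset.smul_sum]
        refine Finset.sum_congr rfl fun j _ => ?_
        rw [smul_smul]
    _ = ∑ j, (∑ l, T⁻¹ k l * T l j) • x j := by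
        rw [Finset.sum_comm]
        refine Finset.sum_congr rfl fun j _ => ?_
        rw [Finset.sum_smul]
    _ = ∑ j, (if k = j then (1 : ℂ) else 0) • x j := by
        refine Finset.sum_congr rfl fun j _ => ?_
        rw [h j, Matrix.one_apply]
    _ = x k := by
        simp [ite_smul]

section
variable {m : ℕ} {A : Type} [Ring A] [Algebra ℂ A]

/-- `pe x (slp T P) = pe (li T x) P` -/
theorem pe_slp (h1 : LSUStmt) (T : Matrix (Fin m) (Fin m) ℂ) (x : Fin m → A)
    (P : List (Fin m) →₀ ℂ) : pe (li T x) P = pe x (slp T P) := by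
  rw [pe_eq, pe_eq, slp_eq, Finsupp.linearCombination_linearCombination]
  congr 2
  funext w
  exact (h1 m A x T w).1

/-- `dp x k (slp T P) = ∑_j T_jk dp (li T x) j P` -/
theorem dp_slp (h1 : LSUStmt) (τ : A →ₗ[ℂ] ℂ) (T : Matrix (Fin m) (Fin m) ℂ)
    (x : Fin m → A) (P : List (Fin m) →₀ ℂ) (k : Fin m) :
    dp τ x k (slp T P) = ∑ j, T j k * dp τ (li T x) j P := by
  have h3 : ∀ w : List (Fin m),
      Finsupp.linearCombination ℂ (fun w => dq (fun w => τ (ev x w)) k w) (sl T w) =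
        ∑ j, T j k * dq (fun w => τ (ev (li T x) w)) j w := by
    intro w
    have h4 := congrArg (fun S : Module.End ℂ A => τ (S 1))
      ((h1 m (Module.End ℂ A) (fun j => (LinearMap.mulLeft ℂ (x j) : Module.End ℂ A)) T w).2 k
        (ee τ))
    rw [app_sum] at h4
    have h5 : (fun W => τ ((dv (fun j => (LinearMap.mulLeft ℂ (x j) : Module.End ℂ A)) k (ee τ) W) 1))
        = fun W => dq (fun w => τ (ev x w)) k W := by
      funext W
      exact (dve_thm (Fin m) A τ x k W).symm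
    rw [h5] at h4
    rw [h4]
    simp only [LinearMap.sum_apply, map_sum, LinearMap.smul_apply, map_smul, smul_eq_mul]
    refine Finset.sum_congr rfl fun j _ => ?_
    rw [dve_thm (Fin m) A τ (li T x) j w, left_li]
  rw [dp_eq, slp_eq, Finsupp.linearCombination_linearCombination]
  rw [Finsupp.linearCombination_apply, Finsupp.sum]
  simp only [h3, smul_eq_mul, Finset.mul_sum]
  rw [Finset.sum_comm]
  refine Finset.sum_congr rfl fun j _ => ?_
  rw [dp, Finsupp.sum, Finset.mul_sum]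
  refine Finset.sum_congr rfl fun w _ => ?_
  ring

/-- `dp (li T x) l P = ∑_k (T⁻¹)_kl dp x k (slp T P)` -/
theorem dp_li (h1 : LSUStmt) (τ : A →ₗ[ℂ] ℂ) (T : Matrix (Fin m) (Fin m) ℂ)
    (hT : IsUnit T.det) (x : Fin m → A) (P : List (Fin m) →₀ ℂ) (l : Fin m) :
    dp τ (li T x) l P = ∑ k, T⁻¹ k l * dp τ x k (slp T P) := by
  have h : ∀ j : Fin m, ∑ k, T j k * T⁻¹ k l = (1 : Matrix (Fin m) (Fin m) ℂ) j l := by
    intro j
    rw [← Matrix.mul_nonsing_inv T hT, Matrix.mul_apply]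
  calc dp τ (li T x) l P = ∑ j, (if j = l then (1 : ℂ) else 0) * dp τ (li T x) j P := by
        simp [ite_mul]
    _ = ∑ j, (∑ k, T j k * T⁻¹ k l) * dp τ (li T x) j P := by
        refine Finset.sum_congr rfl fun j _ => ?_
        rw [h j, Matrix.one_apply]
    _ = ∑ j, ∑ k, T⁻¹ k l * (T j k * dp τ (li T x) j P) := by
        refine Finset.sum_congr rfl fun j _ => ?_
        rw [Finset.sum_mul]
        refine Finset.sum_congr rfl fun k _ => ?_
        ring
    _ = ∑ k, T⁻¹ k l * dp τ x k (slp T P) := by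
        rw [Finset.sum_comm]
        refine Finset.sum_congr rfl fun k _ => ?_
        rw [dp_slp h1, Finset.mul_sum]

/-- `τ (cp x i P * a)` is the sum of the `τ (dv x i a w)`. -/
theorem tau_cp (τ : A →ₗ[ℂ] ℂ) (hc : ∀ a b, τ (a * b) = τ (b * a)) (x : Fin m → A) (i : Fin m)
    (P : List (Fin m) →₀ ℂ) (a : A) :
    τ (cp x i P * a) = Finsupp.linearCombination ℂ (fun w => τ (dv x i a w)) P := by
  rw [cp, Finsupp.sum, Finset.sum_mul, map_sum, Finsupp.linearCombination_apply, Finsupp.sum]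
  refine Finset.sum_congr rfl fun w _ => ?_
  rw [smul_mul_assoc, map_smul, cgt_thm (Fin m) A τ hc x i a w]

/-- `τ (cp (li T x) l (slp T⁻¹ H) a) = ∑_k (T⁻¹)_kl τ (cp x k H a)` -/
theorem cp_li (h1 : LSUStmt) (τ : A →ₗ[ℂ] ℂ) (hc : ∀ a b, τ (a * b) = τ (b * a))
    (T : Matrix (Fin m) (Fin m) ℂ)
    (hT : IsUnit T.det) (x : Fin m → A) (H : List (Fin m) →₀ ℂ) (l : Fin m) (a : A) :
    τ (cp (li T x) l (slp T⁻¹ H) * a) = ∑ k, T⁻¹ k l * τ (cp x k H * a) := by
  have h3 : ∀ w : List (Fin m),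
      Finsupp.linearCombination ℂ (fun w => τ (dv (li T x) l a w)) (sl T⁻¹ w) =
        ∑ k, T⁻¹ k l * τ (dv x k a w) := by
    intro w
    have h4 := congrArg τ ((h1 m A (li T x) T⁻¹ w).2 l a)
    rw [tau_sum, li_inv T hT x] at h4
    rw [h4]
    simp only [map_sum, map_smul, smul_eq_mul]
  rw [tau_cp τ hc, slp_eq, Finsupp.linearCombination_linearCombination,
    Finsupp.linearCombination_apply, Finsupp.sum]
  simp only [h3, smul_eq_mul, Finset.mul_sum]
  rw [Finset.sum_comm]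
  refine Finset.sum_congr rfl fun k _ => ?_
  rw [tau_cp τ hc, Finsupp.linearCombination_apply, Finsupp.sum, Finset.mul_sum]
  refine Finset.sum_congr rfl fun w _ => ?_
  rw [smul_eq_mul]
  ring

end

end LIN64

open LIN64 in
/-- **LIN** -/
theorem lin_thm (h1 : LSUStmt) : LINStmt := by
  intro m A _ τ hτ x T hT hY ε hε
  have hM : ∀ l : Fin m, ∑ k, ‖T⁻¹ k l‖ ≤ ∑ l, ∑ k, ‖T⁻¹ k l‖ := fun l =>
    Finset.single_le_sum (f := fun l => ∑ k, ‖T⁻¹ k l‖)
      (fun l _ => Finset.sum_nonneg fun k _ => norm_nonneg _) (Finset.mem_univ l)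
  have hM0 : 0 ≤ ∑ l, ∑ k, ‖T⁻¹ k l‖ :=
    Finset.sum_nonneg fun l _ => Finset.sum_nonneg fun k _ => norm_nonneg _
  generalize hMd : ∑ l, ∑ k, ‖T⁻¹ k l‖ = M at hM hM0
  have hM1 : 0 < 1 + M := by linarith
  obtain ⟨H, hH⟩ := hY (ε / (1 + M)) (div_pos hε hM1)
  refine ⟨slp T⁻¹ H, fun l P => ?_⟩
  have e1 := dp_li h1 τ T hT x P l
  have e2 := cp_li h1 τ hτ.comm T hT x H l (pe (li T x) P)
  have e3 := pe_slp h1 T x P
  rw [e1, e2, ← Finset.sum_sub_distrib, e3]
  have hn : 0 ≤ n2 τ (pe x (slp T P)) := Real.sqrt_nonneg _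
  calc ‖∑ k, (T⁻¹ k l * dp τ x k (slp T P) - T⁻¹ k l * τ (cp x k H * pe x (slp T P)))‖
      ≤ ∑ k, ‖T⁻¹ k l * dp τ x k (slp T P) - T⁻¹ k l * τ (cp x k H * pe x (slp T P))‖ :=
        norm_sum_le _ _
    _ ≤ ∑ k, ‖T⁻¹ k l‖ * (ε / (1 + M) * n2 τ (pe x (slp T P))) := by
        refine Finset.sum_le_sum fun k _ => ?_
        rw [← mul_sub, norm_mul]
        exact mul_le_mul_of_nonneg_left (hH k (slp T P)) (norm_nonneg _)
    _ = (∑ k, ‖T⁻¹ k l‖) * (ε / (1 + M) * n2 τ (pe x (slp T P))) := by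
        rw [Finset.sum_mul]
    _ ≤ (1 + M) * (ε / (1 + M) * n2 τ (pe x (slp T P))) := by
        refine mul_le_mul_of_nonneg_right (by linarith [hM l]) ?_
        exact mul_nonneg (div_pos hε hM1).le hn
    _ = ε * n2 τ (pe x (slp T P)) := by
        field_simp

end Pool.TAM
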